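import Mathlib

/-!
# Squad ZPK, row GXA (helper67), part 1: the residue field, and the algebra in it
-/

set_option autoImplicit false

namespace Pool.Agent.ZPK.H67

/-- the ring of integers and the residue field of an ultrametric field -/
theorem exists_res (K : Type) [NormedField K] [IsUltrametricDist K] :
    ∃ (R k : Type) (_ : CommRing R) (_ : Field k) (c : R →+* K) (φ : R →+* k),
      (∀ x : K, ‖x‖ ≤ 1 → ∃ X, c X = x) ∧ (∀ X, ‖c X‖ ≤ 1) ∧ ∀ X, φ X = 0 ↔ ‖c X‖ < 1 := by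
  obtain ⟨S, hS⟩ : ∃ S : ValuationSubring K, ∀ x, x ∈ S ↔ ‖x‖ ≤ 1 := by
    refine ⟨(NormedField.valuation (K := K)).valuationSubring, fun x => ?_⟩
    rw [Valuation.mem_valuationSubring_iff, NormedField.valuation_apply]
    exact Iff.rfl
  refine ⟨S, IsLocalRing.ResidueField S, inferInstance, inferInstance, S.subtype,
    IsLocalRing.residue S, fun x hx => ⟨⟨x, (hS x).2 hx⟩, rfl⟩, fun X => (hS _).1 X.2, fun X => ?_⟩
  rw [IsLocalRing.residue_eq_zero_iff, IsLocalRing.mem_maximalIdeal, mem_nonunits_iff]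
  have h1 : ‖(X : K)‖ ≤ 1 := (hS _).1 X.2
  change ¬ IsUnit X ↔ ‖(X : K)‖ < 1
  rw [not_iff_comm, not_lt]
  constructor
  · intro h2
    have h3 : ‖(X : K)‖ = 1 := le_antisymm h1 h2
    have h4 : (X : K) ≠ 0 := by
      intro h
      rw [h, norm_zero] at h3
      exact zero_ne_one h3
    have h5 : (X : K)⁻¹ ∈ S := by
      rw [hS, norm_inv, h3, inv_one]
    exact IsUnit.of_mul_eq_one (⟨(X : K)⁻¹, h5⟩ : S) (Subtype.ext (mul_inv_cancel₀ h4))
  · rintro ⟨u, hu⟩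
    have h3 : (X : K) * ((u⁻¹ : Sˣ) : S) = 1 := by
      have h4 : X * ((u⁻¹ : Sˣ) : S) = 1 := by rw [← hu]; exact u.mul_inv
      exact congrArg (fun z : S => (z : K)) h4
    have h4 : ‖(((u⁻¹ : Sˣ) : S) : K)‖ ≤ 1 := (hS _).1 (Subtype.property _)
    have h5 := congrArg norm h3
    rw [norm_mul, norm_one] at h5
    have h6 : ‖(X : K)‖ * ‖(((u⁻¹ : Sˣ) : S) : K)‖ ≤ ‖(X : K)‖ * 1 :=
      mul_le_mul_of_nonneg_left h4 (norm_nonneg _)
    rw [h5, mul_one] at h6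
    exact h6

/-- the algebra in the residue field -/
theorem alg {k : Type} [Field k] {G1 B1 G2 B2 G3 B3 m1 n1 m2 n2 m3 n3 β β' : k} (hβ : β ≠ β')
    (h1 : G1 ≠ 0 ∨ B1 ≠ 0) (hd : G2 * B3 - G3 * B2 ≠ 0)
    (e0 : (G2 * B3 - G3 * B2) * (β * n1) + (β * B1 - G1) * (G3 * n2 - G2 * n3) = 0)
    (e0' : (G2 * B3 - G3 * B2) * (β' * n1) + (β' * B1 - G1) * (G3 * n2 - G2 * n3) = 0)
    (e1 : (G2 * B3 - G3 * B2) * (β * m1 + n1) +
      (β * B1 - G1) * (G3 * m2 + B3 * n2 - G2 * m3 - B2 * n3) = 0)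
    (e1' : (G2 * B3 - G3 * B2) * (β' * m1 + n1) +
      (β' * B1 - G1) * (G3 * m2 + B3 * n2 - G2 * m3 - B2 * n3) = 0)
    (e2 : (G2 * B3 - G3 * B2) * m1 + (β * B1 - G1) * (B3 * m2 - B2 * m3) = 0)
    (e2' : (G2 * B3 - G3 * B2) * m1 + (β' * B1 - G1) * (B3 * m2 - B2 * m3) = 0)
    (hc : (n2 = 0 ∧ n3 = 0) ∨ (n2 = 0 ∧ G3 = 0 ∧ B3 = 1 ∧ G2 ≠ 0) ∨
      (n3 = 0 ∧ G2 = 0 ∧ B2 = 1 ∧ G3 ≠ 0)) :
    m1 = 0 ∧ n1 = 0 ∧ m2 = 0 ∧ n2 = 0 ∧ m3 = 0 ∧ n3 = 0 := by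
  obtain ⟨d, hdd⟩ : ∃ d, d = G2 * B3 - G3 * B2 := ⟨_, rfl⟩
  obtain ⟨W0, hW0⟩ : ∃ W, W = G3 * n2 - G2 * n3 := ⟨_, rfl⟩
  obtain ⟨W1, hW1⟩ : ∃ W, W = G3 * m2 + B3 * n2 - G2 * m3 - B2 * n3 := ⟨_, rfl⟩
  obtain ⟨W2, hW2⟩ : ∃ W, W = B3 * m2 - B2 * m3 := ⟨_, rfl⟩
  rw [← hdd, ← hW0] at e0 e0'
  rw [← hdd, ← hW1] at e1 e1'
  rw [← hdd, ← hW2] at e2 e2'
  rw [← hdd] at hd
  have hb : β - β' ≠ 0 := sub_ne_zero.2 hβ
  have f0 : d * n1 + B1 * W0 = 0 := by
    apply mul_left_cancel₀ hb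
    linear_combination e0 - e0'
  have f1 : d * m1 + B1 * W1 = 0 := by
    apply mul_left_cancel₀ hb
    linear_combination e1 - e1'
  have f2 : B1 * W2 = 0 := by
    apply mul_left_cancel₀ hb
    linear_combination e2 - e2'
  have g0 : G1 * W0 = 0 := by linear_combination β * f0 - e0
  have g1 : G1 * W1 = d * n1 := by linear_combination β * f1 - e1
  have g2 : G1 * W2 = d * m1 := by linear_combination β * f2 - e2
  have hW : W0 = 0 ∧ W1 = 0 ∧ W2 = 0 := by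
    rcases h1 with h1 | h1
    · have a0 : W0 = 0 := (mul_eq_zero.1 g0).resolve_left h1
      rw [a0, mul_zero, add_zero] at f0
      have a1 : W1 = 0 := by
        rw [f0] at g1
        exact (mul_eq_zero.1 g1).resolve_left h1
      rw [a1, mul_zero, add_zero] at f1
      rw [f1] at g2
      exact ⟨a0, a1, (mul_eq_zero.1 g2).resolve_left h1⟩
    · have a2 : W2 = 0 := (mul_eq_zero.1 f2).resolve_left h1
      rw [a2, mul_zero] at g2
      rw [← g2, zero_add] at f1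
      have a1 : W1 = 0 := (mul_eq_zero.1 f1).resolve_left h1
      rw [a1, mul_zero] at g1
      rw [← g1, zero_add] at f0
      exact ⟨(mul_eq_zero.1 f0).resolve_left h1, a1, a2⟩
  obtain ⟨a0, a1, a2⟩ := hW
  rw [a0, mul_zero, add_zero] at f0
  rw [a1, mul_zero, add_zero] at f1
  have b1 : n1 = 0 := (mul_eq_zero.1 f0).resolve_left hd
  have b2 : m1 = 0 := (mul_eq_zero.1 f1).resolve_left hd
  rw [a0] at hW0
  rw [a1] at hW1
  rw [a2] at hW2
  rcases hc with ⟨c2, c3⟩ | ⟨c2, c3, c4, c5⟩ | ⟨c2, c3, c4, c5⟩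
  · subst c2 c3
    have i2 : m2 = 0 := by
      apply mul_left_cancel₀ hd
      rw [hdd]
      linear_combination (-G2) * hW2 + B2 * hW1
    have i3 : m3 = 0 := by
      apply mul_left_cancel₀ hd
      rw [hdd]
      linear_combination B3 * hW1 - G3 * hW2
    exact ⟨b2, b1, i2, rfl, i3, rfl⟩
  · subst c2 c3 c4
    have i3 : n3 = 0 := by
      apply mul_left_cancel₀ c5
      linear_combination hW0
    subst i3
    have i4 : m3 = 0 := by
      apply mul_left_cancel₀ c5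
      linear_combination hW1
    subst i4
    have i5 : m2 = 0 := by linear_combination -hW2
    exact ⟨b2, b1, i5, rfl, rfl, rfl⟩
  · subst c2 c3 c4
    have i3 : n2 = 0 := by
      apply mul_left_cancel₀ c5
      linear_combination -hW0
    subst i3
    have i4 : m2 = 0 := by
      apply mul_left_cancel₀ c5
      linear_combination -hW1
    subst i4
    have i5 : m3 = 0 := by linear_combination hW2
    exact ⟨b2, b1, rfl, rfl, i5, rfl⟩

end Pool.Agent.ZPK.H67
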