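import Pool.Agent.ZPK.StmtsG
import Pool.Agent.Helper67_ZPK.GXAa

/-!
# Squad ZPK, row GXA (helper67)
-/

set_option autoImplicit false

namespace Pool.Agent.ZPK.H67

open Polynomial Pool.Agent.ZPT Pool.Agent.ZP3 Pool.Agent.ZPK

theorem norm_nat {p : ℕ} (hp : p.Prime) {K : Type} [NormedField K] [CharZero K] (hE : Ext p K)
    {q : ℕ} (h1 : 1 ≤ q) (h2 : q < p) : ‖(q : K)‖ = 1 := by
  haveI := Fact.mk hp
  have h := hE (q : ℚ)
  rw [Rat.cast_natCast] at h
  rw [h]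
  have h3 : padicNorm p (q : ℚ) = 1 := by
    rw [padicNorm.nat_eq_one_iff]
    intro h4
    have := Nat.le_of_dvd h1 h4
    omega
  rw [h3, Rat.cast_one]

theorem quad_coeff {K : Type} [Field K] (a b c : K) :
    (C a + C b * X + C c * X ^ 2 : K[X]).coeff 0 = a ∧
    (C a + C b * X + C c * X ^ 2 : K[X]).coeff 1 = b ∧
    (C a + C b * X + C c * X ^ 2 : K[X]).coeff 2 = c := by
  refine ⟨?_, ?_, ?_⟩
  · simp [coeff_X, coeff_X_pow, coeff_C]
  · simp [coeff_X, coeff_X_pow, coeff_C]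
  · simp [coeff_X, coeff_X_pow, coeff_C]

theorem hx_coeff {K : Type} [Field K] (G B m n : Fin 4 → K) (h0 : B 0 = 1) (hm : m 0 = 0)
    (hn : n 0 = 0) :
    (Hx G B m n).coeff 0 = -((G 2 * B 3 - G 3 * B 2) * (G 0 * n 1)) -
      (G 0 * B 1 - G 1) * (G 3 * n 2 - G 2 * n 3) ∧
    (Hx G B m n).coeff 1 = -((G 2 * B 3 - G 3 * B 2) * (G 0 * m 1 + n 1)) -
      (G 0 * B 1 - G 1) * (G 3 * m 2 + B 3 * n 2 - G 2 * m 3 - B 2 * n 3) ∧
    (Hx G B m n).coeff 2 = -((G 2 * B 3 - G 3 * B 2) * m 1) -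
      (G 0 * B 1 - G 1) * (B 3 * m 2 - B 2 * m 3) := by
  have h : Hx G B m n =
      C (-((G 2 * B 3 - G 3 * B 2) * (G 0 * n 1)) -
        (G 0 * B 1 - G 1) * (G 3 * n 2 - G 2 * n 3)) +
      C (-((G 2 * B 3 - G 3 * B 2) * (G 0 * m 1 + n 1)) -
        (G 0 * B 1 - G 1) * (G 3 * m 2 + B 3 * n 2 - G 2 * m 3 - B 2 * n 3)) * X +
      C (-((G 2 * B 3 - G 3 * B 2) * m 1) -
        (G 0 * B 1 - G 1) * (B 3 * m 2 - B 2 * m 3)) * X ^ 2 := by
    unfold Hx
    rw [h0, hm, hn]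
    simp only [map_sub, map_mul, map_add, map_neg, map_one, map_zero]
    ring
  rw [h]
  exact quad_coeff _ _ _

/-- the equations in the residue field -/
theorem eqs {K R k : Type} [NormedField K] [CommRing R] [Field k] {c : R →+* K} {φ : R →+* k}
    (hle : ∀ X, ‖c X‖ ≤ 1) (hker : ∀ X, φ X = 0 ↔ ‖c X‖ < 1) {L : K → R}
    (hL : ∀ x, ‖x‖ ≤ 1 → c (L x) = x) {G B m n : Fin 4 → K} (hG : ∀ i, ‖G i‖ ≤ 1)
    (hB : ∀ i, ‖B i‖ ≤ 1) (hm : ∀ i, ‖m i‖ ≤ 1) (hn : ∀ i, ‖n i‖ ≤ 1) (h0 : B 0 = 1)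
    (hm0 : m 0 = 0) (hn0 : n 0 = 0) (hH : ∀ r, ‖(Hx G B m n).coeff r‖ ≠ 1) :
    (φ (L (G 2)) * φ (L (B 3)) - φ (L (G 3)) * φ (L (B 2))) * (φ (L (G 0)) * φ (L (n 1))) +
      (φ (L (G 0)) * φ (L (B 1)) - φ (L (G 1))) *
        (φ (L (G 3)) * φ (L (n 2)) - φ (L (G 2)) * φ (L (n 3))) = 0 ∧
    (φ (L (G 2)) * φ (L (B 3)) - φ (L (G 3)) * φ (L (B 2))) *
        (φ (L (G 0)) * φ (L (m 1)) + φ (L (n 1))) +
      (φ (L (G 0)) * φ (L (B 1)) - φ (L (G 1))) *
        (φ (L (G 3)) * φ (L (m 2)) + φ (L (B 3)) * φ (L (n 2)) - φ (L (G 2)) * φ (L (m 3)) -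
          φ (L (B 2)) * φ (L (n 3))) = 0 ∧
    (φ (L (G 2)) * φ (L (B 3)) - φ (L (G 3)) * φ (L (B 2))) * φ (L (m 1)) +
      (φ (L (G 0)) * φ (L (B 1)) - φ (L (G 1))) *
        (φ (L (B 3)) * φ (L (m 2)) - φ (L (B 2)) * φ (L (m 3))) = 0 := by
  obtain ⟨q0, q1, q2⟩ := hx_coeff G B m n h0 hm0 hn0
  have key : ∀ (r : ℕ) (Y : R), c Y = (Hx G B m n).coeff r → φ Y = 0 := by
    intro r Y hY
    rw [hker]
    refine lt_of_le_of_ne (hle Y) ?_
    rw [hY]
    exact hH r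
  refine ⟨?_, ?_, ?_⟩
  · have h := key 0 (-((L (G 2) * L (B 3) - L (G 3) * L (B 2)) * (L (G 0) * L (n 1))) -
      (L (G 0) * L (B 1) - L (G 1)) * (L (G 3) * L (n 2) - L (G 2) * L (n 3))) (by
        rw [q0]
        simp only [map_sub, map_mul, map_neg]
        rw [hL _ (hG 2), hL _ (hB 3), hL _ (hG 3), hL _ (hB 2), hL _ (hG 0), hL _ (hn 1),
          hL _ (hB 1), hL _ (hG 1), hL _ (hn 2), hL _ (hn 3)])
    simp only [map_sub, map_mul, map_neg] at h
    linear_combination -h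
  · have h := key 1 (-((L (G 2) * L (B 3) - L (G 3) * L (B 2)) * (L (G 0) * L (m 1) + L (n 1))) -
      (L (G 0) * L (B 1) - L (G 1)) * (L (G 3) * L (m 2) + L (B 3) * L (n 2) - L (G 2) * L (m 3) -
        L (B 2) * L (n 3))) (by
        rw [q1]
        simp only [map_sub, map_mul, map_neg, map_add]
        rw [hL _ (hG 2), hL _ (hB 3), hL _ (hG 3), hL _ (hB 2), hL _ (hG 0), hL _ (hn 1),
          hL _ (hB 1), hL _ (hG 1), hL _ (hn 2), hL _ (hn 3), hL _ (hm 1), hL _ (hm 2),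
          hL _ (hm 3)])
    simp only [map_sub, map_mul, map_neg, map_add] at h
    linear_combination -h
  · have h := key 2 (-((L (G 2) * L (B 3) - L (G 3) * L (B 2)) * L (m 1)) -
      (L (G 0) * L (B 1) - L (G 1)) * (L (B 3) * L (m 2) - L (B 2) * L (m 3))) (by
        rw [q2]
        simp only [map_sub, map_mul, map_neg]
        rw [hL _ (hG 2), hL _ (hB 3), hL _ (hG 3), hL _ (hB 2), hL _ (hG 0), hL _ (hm 1),
          hL _ (hB 1), hL _ (hG 1), hL _ (hm 2), hL _ (hm 3)])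
    simp only [map_sub, map_mul, map_neg] at h
    linear_combination -h

theorem gxa : GxaStmt := by
  intro p hp K _ _ _ hE n e A E hZ hEp hA1 hA0 g g' hg hg' hDi b i j k m hbi hbj hbk hjk hik heb
    hb0 hbr hm1 hme hT1 hT2 hex hgg hH hH'
  by_contra hcon
  push Not at hcon
  obtain ⟨R, kk, iR, ik, c, φ, hs, hle, hker⟩ := exists_res K
  choose! L hL using hs
  -- basic facts about F = φ ∘ L
  have F0 : ∀ x : K, ‖x‖ ≤ 1 → (φ (L x) = 0 ↔ ‖x‖ < 1) := by
    intro x hx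
    rw [hker, hL x hx]
  have Feq : ∀ x y : K, ‖x‖ ≤ 1 → ‖y‖ ≤ 1 → (φ (L x) = φ (L y) ↔ ‖x - y‖ < 1) := by
    intro x y hx hy
    rw [← sub_eq_zero, ← map_sub, hker, map_sub, hL x hx, hL y hy]
  have F1 : φ (L 1) = 1 := by
    rw [← sub_eq_zero, ← map_one φ, ← map_sub, hker, map_sub, hL 1 (by rw [norm_one]), map_one,
      sub_self, norm_zero]
    exact one_pos
  -- the entries
  have hG : ∀ (gg : Fin n → K), (∀ i, ‖gg i‖ = 1) → ∀ x, ‖Gf (e b) (e x) (gg x)‖ ≤ 1 := by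
    intro gg hgg x
    unfold Gf
    split_ifs
    · exact (hgg x).le
    · rw [norm_zero]; exact zero_le_one
  have hB : ∀ x, ‖Bf (e b) (e x) (A x)‖ ≤ 1 := by
    intro x
    unfold Bf
    split_ifs
    · rw [norm_zero]; exact zero_le_one
    · exact hA1 x 0
    · rw [norm_one]
  have hn1 : ∀ q : ℕ, 1 ≤ q → q ≤ E → ‖(q : K)‖ = 1 := fun q h1 h2 =>
    norm_nat hp hE h1 (lt_of_le_of_lt h2 hEp)
  have hM : ∀ x, Mu (e b) (e x) (A x) m = 0 ∨ ‖Mu (e b) (e x) (A x) m‖ = 1 := by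
    intro x
    have hbE := hZ.1 b
    unfold Mu
    split_ifs with h1 h2 h3
    · exact hZ.2 x _ (by omega)
    · exact Or.inl rfl
    · exact hZ.2 x _ (by omega)
    · have h4 : 1 ≤ e x := by omega
      rcases hZ.2 x m (by omega) with h5 | h5
      · left
        rw [h5, mul_zero, zero_div]
      · right
        rw [norm_div, norm_mul, norm_div, hn1 _ heb hbE, hn1 _ h4 (hZ.1 x), h5, hA0 x h4]
        norm_num
  have hN : ∀ (gg : Fin n → K), (∀ i, ‖gg i‖ = 1) → ∀ x,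
      Nu (e b) (e x) (A x) (gg x) m = 0 ∨ ‖Nu (e b) (e x) (A x) (gg x) m‖ = 1 := by
    intro gg hgg x
    unfold Nu
    split_ifs with h1
    · right
      have h4 : 1 ≤ e x := by omega
      rw [norm_div, norm_mul, norm_div, hn1 _ heb (hZ.1 b), hn1 _ h4 (hZ.1 x), hgg x, hA0 x h4]
      norm_num
    · exact Or.inl rfl
  have hM' : ∀ x, ‖Mu (e b) (e x) (A x) m‖ ≤ 1 := by
    intro x
    rcases hM x with h | h
    · rw [h, norm_zero]; exact zero_le_one
    · exact h.le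
  have hN' : ∀ (gg : Fin n → K), (∀ i, ‖gg i‖ = 1) → ∀ x,
      ‖Nu (e b) (e x) (A x) (gg x) m‖ ≤ 1 := by
    intro gg hgg x
    rcases hN gg hgg x with h | h
    · rw [h, norm_zero]; exact zero_le_one
    · exact h.le
  have hBb : Bf (e b) (e b) (A b) = 1 := by
    unfold Bf
    rw [if_neg (lt_irrefl _), if_pos rfl, hb0]
  have hMb : Mu (e b) (e b) (A b) m = 0 := by
    unfold Mu
    rw [if_neg (lt_irrefl _), if_pos rfl, hbr m hm1]
  have hNb : ∀ gg : Fin n → K, Nu (e b) (e b) (A b) (gg b) m = 0 := by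
    intro gg
    unfold Nu
    rw [if_neg (fun h => lt_irrefl _ h.1)]
  have hGb : ∀ gg : Fin n → K, Gf (e b) (e b) (gg b) = gg b := by
    intro gg
    unfold Gf
    rw [if_pos le_rfl]
  have E1 := eqs hle hker hL
    (G := fun s => Gf (e b) (e (![b, i, j, k] s)) (g (![b, i, j, k] s)))
    (B := fun s => Bf (e b) (e (![b, i, j, k] s)) (A (![b, i, j, k] s)))
    (m := fun s => Mu (e b) (e (![b, i, j, k] s)) (A (![b, i, j, k] s)) m)
    (n := fun s => Nu (e b) (e (![b, i, j, k] s)) (A (![b, i, j, k] s)) (g (![b, i, j, k] s)) m)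
    (fun s => hG g hg _) (fun s => hB _) (fun s => hM' _) (fun s => hN' g hg _) hBb hMb (hNb g) hH
  have E2 := eqs hle hker hL
    (G := fun s => Gf (e b) (e (![b, i, j, k] s)) (g' (![b, i, j, k] s)))
    (B := fun s => Bf (e b) (e (![b, i, j, k] s)) (A (![b, i, j, k] s)))
    (m := fun s => Mu (e b) (e (![b, i, j, k] s)) (A (![b, i, j, k] s)) m)
    (n := fun s => Nu (e b) (e (![b, i, j, k] s)) (A (![b, i, j, k] s)) (g' (![b, i, j, k] s)) m)
    (fun s => hG g' hg' _) (fun s => hB _) (fun s => hM' _) (fun s => hN' g' hg' _) hBb hMb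
    (hNb g') hH'
  change (φ (L (Gf (e b) (e j) (g j))) * φ (L (Bf (e b) (e k) (A k))) -
      φ (L (Gf (e b) (e k) (g k))) * φ (L (Bf (e b) (e j) (A j)))) *
      (φ (L (Gf (e b) (e b) (g b))) * φ (L (Nu (e b) (e i) (A i) (g i) m))) +
    (φ (L (Gf (e b) (e b) (g b))) * φ (L (Bf (e b) (e i) (A i))) -
      φ (L (Gf (e b) (e i) (g i)))) *
      (φ (L (Gf (e b) (e k) (g k))) * φ (L (Nu (e b) (e j) (A j) (g j) m)) -
        φ (L (Gf (e b) (e j) (g j))) * φ (L (Nu (e b) (e k) (A k) (g k) m))) = 0 ∧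
    (φ (L (Gf (e b) (e j) (g j))) * φ (L (Bf (e b) (e k) (A k))) -
      φ (L (Gf (e b) (e k) (g k))) * φ (L (Bf (e b) (e j) (A j)))) *
      (φ (L (Gf (e b) (e b) (g b))) * φ (L (Mu (e b) (e i) (A i) m)) +
        φ (L (Nu (e b) (e i) (A i) (g i) m))) +
    (φ (L (Gf (e b) (e b) (g b))) * φ (L (Bf (e b) (e i) (A i))) -
      φ (L (Gf (e b) (e i) (g i)))) *
      (φ (L (Gf (e b) (e k) (g k))) * φ (L (Mu (e b) (e j) (A j) m)) +
        φ (L (Bf (e b) (e k) (A k))) * φ (L (Nu (e b) (e j) (A j) (g j) m)) -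
        φ (L (Gf (e b) (e j) (g j))) * φ (L (Mu (e b) (e k) (A k) m)) -
        φ (L (Bf (e b) (e j) (A j))) * φ (L (Nu (e b) (e k) (A k) (g k) m))) = 0 ∧
    (φ (L (Gf (e b) (e j) (g j))) * φ (L (Bf (e b) (e k) (A k))) -
      φ (L (Gf (e b) (e k) (g k))) * φ (L (Bf (e b) (e j) (A j)))) *
      φ (L (Mu (e b) (e i) (A i) m)) +
    (φ (L (Gf (e b) (e b) (g b))) * φ (L (Bf (e b) (e i) (A i))) -
      φ (L (Gf (e b) (e i) (g i)))) *
      (φ (L (Bf (e b) (e k) (A k))) * φ (L (Mu (e b) (e j) (A j) m)) -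
        φ (L (Bf (e b) (e j) (A j))) * φ (L (Mu (e b) (e k) (A k) m))) = 0 at E1
  change (φ (L (Gf (e b) (e j) (g' j))) * φ (L (Bf (e b) (e k) (A k))) -
      φ (L (Gf (e b) (e k) (g' k))) * φ (L (Bf (e b) (e j) (A j)))) *
      (φ (L (Gf (e b) (e b) (g' b))) * φ (L (Nu (e b) (e i) (A i) (g' i) m))) +
    (φ (L (Gf (e b) (e b) (g' b))) * φ (L (Bf (e b) (e i) (A i))) -
      φ (L (Gf (e b) (e i) (g' i)))) *
      (φ (L (Gf (e b) (e k) (g' k))) * φ (L (Nu (e b) (e j) (A j) (g' j) m)) -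
        φ (L (Gf (e b) (e j) (g' j))) * φ (L (Nu (e b) (e k) (A k) (g' k) m))) = 0 ∧
    (φ (L (Gf (e b) (e j) (g' j))) * φ (L (Bf (e b) (e k) (A k))) -
      φ (L (Gf (e b) (e k) (g' k))) * φ (L (Bf (e b) (e j) (A j)))) *
      (φ (L (Gf (e b) (e b) (g' b))) * φ (L (Mu (e b) (e i) (A i) m)) +
        φ (L (Nu (e b) (e i) (A i) (g' i) m))) +
    (φ (L (Gf (e b) (e b) (g' b))) * φ (L (Bf (e b) (e i) (A i))) -
      φ (L (Gf (e b) (e i) (g' i)))) *
      (φ (L (Gf (e b) (e k) (g' k))) * φ (L (Mu (e b) (e j) (A j) m)) +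
        φ (L (Bf (e b) (e k) (A k))) * φ (L (Nu (e b) (e j) (A j) (g' j) m)) -
        φ (L (Gf (e b) (e j) (g' j))) * φ (L (Mu (e b) (e k) (A k) m)) -
        φ (L (Bf (e b) (e j) (A j))) * φ (L (Nu (e b) (e k) (A k) (g' k) m))) = 0 ∧
    (φ (L (Gf (e b) (e j) (g' j))) * φ (L (Bf (e b) (e k) (A k))) -
      φ (L (Gf (e b) (e k) (g' k))) * φ (L (Bf (e b) (e j) (A j)))) *
      φ (L (Mu (e b) (e i) (A i) m)) +
    (φ (L (Gf (e b) (e b) (g' b))) * φ (L (Bf (e b) (e i) (A i))) -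
      φ (L (Gf (e b) (e i) (g' i)))) *
      (φ (L (Bf (e b) (e k) (A k))) * φ (L (Mu (e b) (e j) (A j) m)) -
        φ (L (Bf (e b) (e j) (A j))) * φ (L (Mu (e b) (e k) (A k) m))) = 0 at E2
  -- the entries for g' are congruent
  have cG : ∀ x, x ≠ b → φ (L (Gf (e b) (e x) (g' x))) = φ (L (Gf (e b) (e x) (g x))) := by
    intro x hx
    unfold Gf
    split_ifs
    · exact ((Feq _ _ (hg x).le (hg' x).le).2 (hgg x hx)).symm
    · rfl
  have cN : ∀ x, x ≠ b → φ (L (Nu (e b) (e x) (A x) (g' x) m)) =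
      φ (L (Nu (e b) (e x) (A x) (g x) m)) := by
    intro x hx
    refine ((Feq _ _ (hN' g hg x) (hN' g' hg' x)).2 ?_).symm
    unfold Nu
    split_ifs with h1
    · have h4 : 1 ≤ e x := by omega
      have h5 : (e b : K) / (e x : K) * g x / A x 0 - (e b : K) / (e x : K) * g' x / A x 0 =
          (e b : K) / (e x : K) * (g x - g' x) / A x 0 := by ring
      rw [h5, norm_div, norm_mul, norm_div, hn1 _ heb (hZ.1 b), hn1 _ h4 (hZ.1 x), hA0 x h4,
        div_one, div_one, one_mul]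
      exact hgg x hx
    · rw [sub_self, norm_zero]; exact one_pos
  rw [cG i (Ne.symm hbi), cG j (Ne.symm hbj), cG k (Ne.symm hbk), cN i (Ne.symm hbi),
    cN j (Ne.symm hbj), cN k (Ne.symm hbk)] at E2
  rw [hGb g] at E1
  rw [hGb g'] at E2
  have hne : φ (L (g b)) ≠ φ (L (g' b)) := by
    intro h
    exact absurd ((Feq _ _ (hg b).le (hg' b).le).1 h) (not_lt.2 hcon)
  -- types
  have t1 : ∀ x, e x ≤ e b → φ (L (Gf (e b) (e x) (g x))) ≠ 0 := by
    intro x hx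
    unfold Gf
    rw [if_pos hx]
    intro h
    have := (F0 _ (hg x).le).1 h
    rw [hg x] at this
    exact lt_irrefl _ this
  have t2 : ∀ x, e b < e x → φ (L (Gf (e b) (e x) (g x))) = 0 := by
    intro x hx
    unfold Gf
    rw [if_neg (not_le.2 hx), F0 _ (by rw [norm_zero]; exact zero_le_one), norm_zero]
    exact one_pos
  have t3 : ∀ x, e b < e x → φ (L (Bf (e b) (e x) (A x))) = 1 := by
    intro x hx
    unfold Bf
    rw [if_neg (by omega), if_neg (by omega)]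
    exact F1
  have t4 : ∀ x, e x ≤ e b → φ (L (Nu (e b) (e x) (A x) (g x) m)) = 0 := by
    intro x hx
    unfold Nu
    rw [if_neg (by omega), F0 _ (by rw [norm_zero]; exact zero_le_one), norm_zero]
    exact one_pos
  have t5 : ∀ x, e x < e b → φ (L (Bf (e b) (e x) (A x))) = 0 := by
    intro x hx
    unfold Bf
    rw [if_pos hx, F0 _ (by rw [norm_zero]; exact zero_le_one), norm_zero]
    exact one_pos
  have t6 : ∀ x, e x = e b → φ (L (Bf (e b) (e x) (A x))) ≠ 0 := by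
    intro x hx
    unfold Bf
    rw [if_neg (by omega), if_pos hx]
    intro h
    have h1 := (F0 _ (hA1 x 0)).1 h
    rw [hA0 x (by omega)] at h1
    exact lt_irrefl _ h1
  have h1 : φ (L (Gf (e b) (e i) (g i))) ≠ 0 ∨ φ (L (Bf (e b) (e i) (A i))) ≠ 0 := by
    by_cases hi : e i ≤ e b
    · exact Or.inl (t1 i hi)
    · right
      rw [t3 i (by omega)]
      exact one_ne_zero
  have hd : φ (L (Gf (e b) (e j) (g j))) * φ (L (Bf (e b) (e k) (A k))) -
      φ (L (Gf (e b) (e k) (g k))) * φ (L (Bf (e b) (e j) (A j))) ≠ 0 := by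
    rcases lt_trichotomy (e j) (e b) with hj | hj | hj
    · rw [t5 j hj, mul_zero, sub_zero]
      apply mul_ne_zero (t1 j hj.le)
      rcases lt_trichotomy (e k) (e b) with hk | hk | hk
      · exact absurd ⟨hj, hk⟩ hT1
      · exact t6 k hk
      · rw [t3 k hk]; exact one_ne_zero
    · rcases lt_trichotomy (e k) (e b) with hk | hk | hk
      · rw [t5 k hk, mul_zero, zero_sub]
        exact neg_ne_zero.2 (mul_ne_zero (t1 k hk.le) (t6 j hj))
      · have h2 := hDi k j (Ne.symm hjk) (by omega) (by omega)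
        have h3 : φ (L (g j)) * φ (L (A k 0)) - φ (L (g k)) * φ (L (A j 0)) ≠ 0 := by
          rw [← map_mul, ← map_mul, ← map_sub]
          intro h
          rw [hker, map_sub, map_mul, map_mul, hL _ (hg j).le, hL _ (hA1 k 0), hL _ (hg k).le,
            hL _ (hA1 j 0)] at h
          have h4 : g j * A k 0 - g k * A j 0 = A k 0 * g j - A j 0 * g k := by ring
          rw [h4, h2] at h
          exact lt_irrefl _ h
        have e1 : Gf (e b) (e j) (g j) = g j := by unfold Gf; rw [if_pos hj.le]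
        have e2 : Gf (e b) (e k) (g k) = g k := by unfold Gf; rw [if_pos hk.le]
        have e3 : Bf (e b) (e j) (A j) = A j 0 := by
          unfold Bf; rw [if_neg (by omega), if_pos hj]
        have e4 : Bf (e b) (e k) (A k) = A k 0 := by
          unfold Bf; rw [if_neg (by omega), if_pos hk]
        rw [e1, e2, e3, e4]
        exact h3
      · rw [t2 k hk, zero_mul, sub_zero, t3 k hk, mul_one]
        exact t1 j hj.le
    · rw [t2 j hj, zero_mul, zero_sub, t3 j hj, mul_one]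
      apply neg_ne_zero.2
      by_cases hk : e k ≤ e b
      · exact t1 k hk
      · exact absurd ⟨hj, by omega⟩ hT2
  have hc : (φ (L (Nu (e b) (e j) (A j) (g j) m)) = 0 ∧
      φ (L (Nu (e b) (e k) (A k) (g k) m)) = 0) ∨
      (φ (L (Nu (e b) (e j) (A j) (g j) m)) = 0 ∧ φ (L (Gf (e b) (e k) (g k))) = 0 ∧
        φ (L (Bf (e b) (e k) (A k))) = 1 ∧ φ (L (Gf (e b) (e j) (g j))) ≠ 0) ∨
      (φ (L (Nu (e b) (e k) (A k) (g k) m)) = 0 ∧ φ (L (Gf (e b) (e j) (g j))) = 0 ∧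
        φ (L (Bf (e b) (e j) (A j))) = 1 ∧ φ (L (Gf (e b) (e k) (g k))) ≠ 0) := by
    by_cases hj : e j ≤ e b
    · by_cases hk : e k ≤ e b
      · exact Or.inl ⟨t4 j hj, t4 k hk⟩
      · exact Or.inr (Or.inl ⟨t4 j hj, t2 k (by omega), t3 k (by omega), t1 j hj⟩)
    · have hk : e k ≤ e b := by
        by_contra hk
        exact hT2 ⟨by omega, by omega⟩
      exact Or.inr (Or.inr ⟨t4 k hk, t2 j (by omega), t3 j (by omega), t1 k hk⟩)
  obtain ⟨a1, a2, a3, a4, a5, a6⟩ := alg hne h1 hd E1.1 E2.1 E1.2.1 E2.2.1 E1.2.2 E2.2.2 hc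
  have fin : ∀ x, φ (L (Mu (e b) (e x) (A x) m)) = 0 →
      φ (L (Nu (e b) (e x) (A x) (g x) m)) = 0 →
      ¬ (Mu (e b) (e x) (A x) m ≠ 0 ∨ Nu (e b) (e x) (A x) (g x) m ≠ 0) := by
    intro x h2 h3
    have h4 := (F0 _ (hM' x)).1 h2
    have h5 := (F0 _ (hN' g hg x)).1 h3
    rintro (h | h)
    · have h6 := (hM x).resolve_left h
      rw [h6] at h4
      exact lt_irrefl _ h4
    · have h6 := (hN g hg x).resolve_left h
      rw [h6] at h5
      exact lt_irrefl _ h5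
  obtain ⟨x, hx, hx2⟩ := hex
  simp only [Set.mem_insert_iff, Set.mem_singleton_iff] at hx
  rcases hx with hx | hx | hx
  · rw [hx] at hx2
    exact fin i a1 a2 hx2
  · rw [hx] at hx2
    exact fin j a3 a4 hx2
  · rw [hx] at hx2
    exact fin k a5 a6 hx2

end Pool.Agent.ZPK.H67
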