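import Pool.Agent.ZPK.StmtsX

/-!
# Squad ZPK, row XDP (helper67): dependence of the normalised parameters
-/

set_option autoImplicit false

namespace Pool.Agent.ZPK.H67

open Pool.Agent.ZPT Pool.Agent.ZP3 Pool.Agent.ZPK

theorem pow_one_of {K : Type} [Field K] {Q q : K} {r s : ℕ} (h : Q ^ r * q ^ s = 1) (n : ℕ) :
    Q ^ (r * n) * q ^ (s * n) = 1 := by
  rw [pow_mul, pow_mul, ← mul_pow, h, one_pow]

theorem xdp : XdpStmt := by
  intro K _ q q' Q Q' r s r' s' hq hq' hr hs hr' hs' h1 h2
  have hQ' : Q' ≠ 0 := by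
    intro h
    rw [h, zero_pow (by omega), zero_mul] at h2
    exact zero_ne_one h2
  constructor
  · rintro ⟨a, b, ha, hb, hab⟩
    refine ⟨r * (s' * a), r' * (s * b), Nat.mul_pos hr (Nat.mul_pos hs' ha),
      Nat.mul_pos hr' (Nat.mul_pos hs hb), ?_⟩
    have e1 := pow_one_of h1 (s' * a)
    have e2 := pow_one_of h2 (s * b)
    have e3 : q ^ (s * (s' * a)) = q' ^ (s' * (s * b)) := by
      have f1 : s * (s' * a) = a * (s * s') := by ring
      have f2 : s' * (s * b) = b * (s * s') := by ring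
      rw [f1, f2, pow_mul _ a, pow_mul _ b, hab]
    rw [e3] at e1
    exact mul_right_cancel₀ (pow_ne_zero _ hq') (e1.trans e2.symm)
  · intro M _ h
    have hM : Q ^ M = Q' ^ M := by
      rw [div_pow, div_eq_one_iff_eq (pow_ne_zero _ hQ')] at h
      exact h
    have e1 := pow_one_of h1 (r' * M)
    have e2 := pow_one_of h2 (r * M)
    have e3 : Q ^ (r * (r' * M)) = Q' ^ (r' * (r * M)) := by
      have f1 : r * (r' * M) = M * (r * r') := by ring
      have f2 : r' * (r * M) = M * (r * r') := by ring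
      rw [f1, f2, pow_mul _ M, pow_mul _ M, hM]
    rw [e3] at e1
    have e4 := mul_left_cancel₀ (pow_ne_zero _ hQ') (e1.trans e2.symm)
    rw [mul_assoc, mul_assoc]
    exact e4

end Pool.Agent.ZPK.H67
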